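import Pool.Agent.H27.L1.H68.GHY.Targets
import Pool.Agent.H27.L1.H79.GA.CKI

/-!
# Row KCD of the board ghy: the kernel as a sum and its majorant (helper49)
-/

set_option autoImplicit false

namespace Pool.Agent.H27.L1.H49.GHY

open MeasureTheory Pool.Agent.H27.L1.H34.GM Pool.Agent.H27.L1.H34.GZ Pool.Agent.H27.L1.H34.GU Pool.Agent.H27.L1.H34.GA
  Pool.Agent.H27.L1.H19.GZ Pool.Agent.H27.L1.H68.GHY

/-- the support of the bump function -/
lemma bi_supp1 {m : ℕ} {χ : ℝ → ℝ} (hχ : Prof χ) {δ : ℝ} (hδ : 0 < δ)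
    (v : Mat m) (hv : bi m χ δ v ≠ 0) : sz (v - 1) ≤ δ := by
  unfold bi at hv
  obtain ⟨S, hS⟩ : ∃ S, S = ∑ i, ∑ j, ((v - 1) i j) ^ 2 := ⟨_, rfl⟩
  rw [← hS] at hv
  have hS0 : 0 ≤ S := by
    rw [hS]
    exact Finset.sum_nonneg fun i _ => Finset.sum_nonneg fun j _ => sq_nonneg _
  have h1 : |S / δ ^ 2| < 1 := by
    by_contra h
    push Not at h
    apply hv
    rw [hχ.supp _ h, Complex.ofReal_zero]
  rw [abs_of_nonneg (by positivity), div_lt_one (by positivity)] at h1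
  apply sz_le (v - 1) hδ.le
  intro i j
  have h3 : ((v - 1) i j) ^ 2 ≤ S := by
    rw [hS]
    calc ((v - 1) i j) ^ 2 ≤ ∑ l, ((v - 1) i l) ^ 2 :=
          Finset.single_le_sum (f := fun l => ((v - 1) i l) ^ 2)
            (fun _ _ => sq_nonneg _) (Finset.mem_univ j)
      _ ≤ _ := Finset.single_le_sum (f := fun i => ∑ l, ((v - 1) i l) ^ 2)
            (fun _ _ => Finset.sum_nonneg fun _ _ => sq_nonneg _) (Finset.mem_univ i)
  exact abs_le_of_sq_le_sq (h3.trans h1.le) hδ.le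

/-- finiteness of the support -/
lemma sz_finite2 {m : ℕ} (hm : 1 ≤ m) (y : ℝ) (g h : Mat m) (hg : g.det ≠ 0) (hh : h.det ≠ 0) :
    {α : ZM m | y ^ 2 / 4 < (α.det.natAbs : ℝ) ∧ (α.det.natAbs : ℝ) ≤ y ^ 2 ∧
      sz (kk (aN (cR α)) h (cR α) g) ≤ 2}.Finite := by
  refine ((Pool.Agent.H27.L1.H79.GA.sz_finite hm (y ^ 2) g h hg hh).union
    (Pool.Agent.H27.L1.H79.GA.sz_finite hm (y ^ 2 / 2) g h hg hh)).subset ?_
  rintro α ⟨h1, h2, h3⟩
  by_cases h4 : y ^ 2 / 2 < (α.det.natAbs : ℝ)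
  · exact Or.inl ⟨h4, h2, h3⟩
  · push Not at h4
    exact Or.inr ⟨by linarith, h4, h3⟩

open Classical in
/-- the terms of the kernel `Kc` -/
private lemma Kc_terms (m N : ℕ) (Φ : Mat m → ℂ) (a : ℕ → ℂ) (d x0 : ℝ) (g h : Mat m)
    (x : VN m N) :
    ∃ f : VN m N → ZM m → ℂ, (∀ w, Kc Φ a d x0 g x h w = ∑' γ : ZM m, f w γ) ∧
    (∀ (w : VN m N) (γ : ZM m), (ac N γ x = w ∧ Pr w ∧ γ.det ≠ 0 ∧ wd x0 d γ.det.natAbs) →
      f w γ = cg a γ * Φ (kk (aN (cR γ)) h (cR γ) g)) ∧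
    (∀ (w : VN m N) (γ : ZM m), ¬ (ac N γ x = w ∧ Pr w ∧ γ.det ≠ 0 ∧
      wd x0 d γ.det.natAbs) → f w γ = 0) :=
  ⟨fun w γ => if ac N γ x = w ∧ Pr w ∧ γ.det ≠ 0 ∧ wd x0 d γ.det.natAbs then
    cg a γ * Φ (kk (aN (cR γ)) h (cR γ) g) else 0, fun _ => rfl,
    fun _ _ h => if_pos h, fun _ _ h => if_neg h⟩

open Classical in
theorem pf_KCD (hCGB : T_CGB) : T_KCD := by
  intro m N _ χ hm hN hχ y a d x0 hy ha hd hd2 hx0
  have hcg := hCGB m y a hm (by linarith) ha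
  refine ⟨?_, ?_⟩
  · intro g h x w
    unfold Kc Kd
    rw [ofReal_norm]
    refine enorm_tsum_le_tsum_enorm.trans (ENNReal.tsum_le_tsum fun γ => ?_)
    by_cases h1 : ac N γ x = w ∧ Pr w ∧ γ.det ≠ 0 ∧ wd x0 d γ.det.natAbs
    · rw [if_pos h1]
      by_cases h2 : bi m χ d (kk (aN (cR γ)) h (cR γ) g) = 0
      · rw [h2]
        simp
      · obtain ⟨h4, -, h5⟩ := hcg γ h1.2.2.1
        by_cases h6 : cg a γ = 0
        · rw [h6]
          simp
        · have h3 := bi_supp1 hχ hd _ h2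
          have h7 := h5 h6
          rw [if_pos ⟨h1.1, h1.2.1, h1.2.2.2, h7.1, h7.2, h3⟩, ← ofReal_norm]
          have h8 : (NL γ : ENNReal) = ENNReal.ofReal ((NL γ : ℕ) : ℝ) :=
            (ENNReal.ofReal_natCast _).symm
          rw [h8]
          apply ENNReal.ofReal_le_ofReal
          rw [norm_mul]
          calc ‖cg a γ‖ * ‖bi m χ d (kk (aN (cR γ)) h (cR γ) g)‖ ≤ (NL γ : ℝ) * 1 :=
                mul_le_mul h4 (Pool.Agent.H27.L1.H79.GA.bi_norm_le hχ d _) (norm_nonneg _)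
                  (Nat.cast_nonneg _)
            _ = _ := mul_one _
    · rw [if_neg h1]
      simp
  · intro F hF g h x hg hh
    have hfin := sz_finite2 hm y g h hg hh
    obtain ⟨f, hf, hf1, hf0⟩ := Kc_terms m N (bi m χ d) a d x0 g h x
    have hsum : ∀ w : VN m N, Summable (fun γ : ZM m => f w γ * F w) := by
      intro w
      apply summable_of_hasFiniteSupport
      apply Set.Finite.subset hfin
      intro γ hγ
      rw [Function.mem_support] at hγ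
      by_cases h1 : ac N γ x = w ∧ Pr w ∧ γ.det ≠ 0 ∧ wd x0 d γ.det.natAbs
      · rw [hf1 w γ h1] at hγ
        have h2 := left_ne_zero_of_mul hγ
        have h3 := (hcg γ h1.2.2.1).2.2 (left_ne_zero_of_mul h2)
        exact ⟨h3.1, h3.2, Pool.Agent.H27.L1.H79.GA.bi_supp hχ hd hd2 _ (right_ne_zero_of_mul h2)⟩
      · rw [hf0 w γ h1, zero_mul] at hγ
        exact absurd rfl hγ
    have h1 : ∑ w : VN m N, Kc (bi m χ d) a d x0 g x h w * F w =
        ∑ w : VN m N, ∑' γ : ZM m, f w γ * F w := by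
      apply Finset.sum_congr rfl
      intro w _
      rw [hf, tsum_mul_right]
    rw [h1, ← Summable.tsum_finsetSum fun w _ => hsum w]
    apply tsum_congr
    intro γ
    by_cases h2 : γ.det ≠ 0 ∧ wd x0 d γ.det.natAbs
    · rw [if_pos h2, Finset.sum_eq_single (ac N γ x)]
      · by_cases h3 : Pr (ac N γ x)
        · rw [hf1 _ γ ⟨rfl, h3, h2⟩, mul_assoc]
        · rw [hF _ h3, mul_zero, mul_zero, mul_zero]
      · intro w _ hw
        rw [hf0 w γ fun h => hw h.1.symm, zero_mul]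
      · intro h
        exact absurd (Finset.mem_univ _) h
    · rw [if_neg h2, zero_mul]
      symm
      apply Finset.sum_eq_zero
      intro w _
      rw [hf0 w γ fun h => h2 h.2.2, zero_mul]

end Pool.Agent.H27.L1.H49.GHY
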